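import Pool.Agent.H66.BP.Targets

/-! modules SUPD and NEG of MP_d8fe2e_gt -/

open MeasureTheory Set Filter Topology Metric
open scoped Real ENNReal NNReal

namespace Pool.Agent.H41.BP

open Pool.Agent.H66.BP

/-! ### one-sided derivatives of convex functions -/

lemma mono_rd {a b : ℝ} {g : ℝ → ℝ} (hg : ConvexOn ℝ (Icc a b) g) :
    MonotoneOn (rd g) (Ioo a b) := by
  have := hg.monotoneOn_rightDeriv
  rwa [interior_Icc] at this

lemma rd_le_slope {a b : ℝ} {g : ℝ → ℝ} (hg : ConvexOn ℝ (Icc a b) g) {x y : ℝ}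
    (hx : x ∈ Ioo a b) (hy : y ∈ Icc a b) (hxy : x < y) : rd g x ≤ slope g x y :=
  hg.rightDeriv_le_slope_of_mem_interior (by rwa [interior_Icc]) hy hxy

lemma slope_le_ld {a b : ℝ} {g : ℝ → ℝ} (hg : ConvexOn ℝ (Icc a b) g) {x y : ℝ}
    (hx : x ∈ Icc a b) (hy : y ∈ Ioo a b) (hxy : x < y) : slope g x y ≤ derivWithin g (Iio y) y :=
  hg.slope_le_leftDeriv_of_mem_interior hx (by rwa [interior_Icc]) hxy

lemma ld_le_rd {a b : ℝ} {g : ℝ → ℝ} (hg : ConvexOn ℝ (Icc a b) g) {y : ℝ} (hy : y ∈ Ioo a b) :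
    derivWithin g (Iio y) y ≤ rd g y :=
  hg.leftDeriv_le_rightDeriv_of_mem_interior (by rwa [interior_Icc])

lemma slope_le_rd {a b : ℝ} {g : ℝ → ℝ} (hg : ConvexOn ℝ (Icc a b) g) {x y : ℝ}
    (hx : x ∈ Icc a b) (hy : y ∈ Ioo a b) (hxy : x < y) : slope g x y ≤ rd g y :=
  (slope_le_ld hg hx hy hxy).trans (ld_le_rd hg hy)

/-- the contact point -/
lemma contact {a b : ℝ} {g : ℝ → ℝ} (hab : a < b) (hg : ConvexOn ℝ (Icc a b) g)
    (hgc : ContinuousOn g (Icc a b)) (w : ℝ) :
    a + (volume (rd g ⁻¹' Iic w ∩ Ioo a b)).toReal ∈ Icc a b ∧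
    ∀ y ∈ Icc a b, g (a + (volume (rd g ⁻¹' Iic w ∩ Ioo a b)).toReal)
      - w * (a + (volume (rd g ⁻¹' Iic w ∩ Ioo a b)).toReal) ≤ g y - w * y := by
  set A : Set ℝ := rd g ⁻¹' Iic w ∩ Ioo a b with hA
  set c : ℝ := a + (volume A).toReal with hc
  have hmono := mono_rd hg
  have hfin : ∀ x y : ℝ, volume (Ioo x y) ≠ ⊤ := fun x y => by
    rw [Real.volume_Ioo]
    exact ENNReal.ofReal_ne_top
  have hdown : ∀ x ∈ A, ∀ y, a < y → y ≤ x → y ∈ A := by
    intro x hx y hy hyx
    have hyI : y ∈ Ioo a b := ⟨hy, hyx.trans_lt hx.2.2⟩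
    exact ⟨(hmono hyI hx.2 hyx).trans hx.1, hyI⟩
  have hcb : c ≤ b := by
    have h1 : (volume A).toReal ≤ (volume (Ioo a b)).toReal :=
      ENNReal.toReal_mono (hfin a b) (measure_mono inter_subset_right)
    rw [Real.volume_Ioo, ENNReal.toReal_ofReal (by linarith)] at h1
    linarith
  have hca : a ≤ c := by
    have : 0 ≤ (volume A).toReal := ENNReal.toReal_nonneg
    linarith
  have hin : ∀ x, x ∈ Ioo a b → x < c → x ∈ A := by
    intro x hx hxc
    by_contra hxA
    have h1 : A ⊆ Ioo a x := by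
      intro y hy
      refine ⟨hy.2.1, ?_⟩
      by_contra hyx
      exact hxA (hdown y hy x hx.1 (not_lt.1 hyx))
    have h2 : (volume A).toReal ≤ (volume (Ioo a x)).toReal :=
      ENNReal.toReal_mono (hfin a x) (measure_mono h1)
    rw [Real.volume_Ioo, ENNReal.toReal_ofReal (by linarith [hx.1])] at h2
    linarith
  have hout : ∀ x, x ∈ Ioo a b → c < x → x ∉ A := by
    intro x hx hxc hxA
    have h1 : Ioo a x ⊆ A := fun y hy => hdown x hxA y hy.1 hy.2.le
    have h2 : (volume (Ioo a x)).toReal ≤ (volume A).toReal :=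
      ENNReal.toReal_mono ((measure_mono inter_subset_right).trans_lt
        (lt_top_iff_ne_top.2 (hfin a b))).ne (measure_mono h1)
    rw [Real.volume_Ioo, ENNReal.toReal_ofReal (by linarith [hx.1])] at h2
    linarith
  have hcI : c ∈ Icc a b := ⟨hca, hcb⟩
  have hφc : ContinuousOn (fun x => g x - w * x) (Icc a b) :=
    hgc.sub (continuous_const.mul continuous_id).continuousOn
  refine ⟨hcI, fun y hy => ?_⟩
  rcases lt_trichotomy y c with h | h | h
  · have hlim : Tendsto (fun x => g x - w * x) (𝓝[Ioo y c] c) (𝓝 (g c - w * c)) :=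
      (hφc c hcI).mono_left (nhdsWithin_mono _ fun x hx => ⟨hy.1.trans hx.1.le, hx.2.le.trans hcb⟩)
    have hne : (𝓝[Ioo y c] c).NeBot := by
      rw [← mem_closure_iff_nhdsWithin_neBot, closure_Ioo h.ne]
      exact right_mem_Icc.2 h.le
    refine le_of_tendsto hlim ?_
    filter_upwards [self_mem_nhdsWithin] with x hx
    have hxI : x ∈ Ioo a b := ⟨hy.1.trans_lt hx.1, hx.2.trans_le hcb⟩
    have h1 := (slope_le_rd hg hy hxI hx.1).trans (hin x hxI hx.2).1
    rw [slope_def_field, div_le_iff₀ (sub_pos.2 hx.1)] at h1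
    linarith
  · rw [h]
  · have hlim : Tendsto (fun x => g x - w * x) (𝓝[Ioo c y] c) (𝓝 (g c - w * c)) :=
      (hφc c hcI).mono_left (nhdsWithin_mono _ fun x hx => ⟨hca.trans hx.1.le, hx.2.le.trans hy.2⟩)
    have hne : (𝓝[Ioo c y] c).NeBot := by
      rw [← mem_closure_iff_nhdsWithin_neBot, closure_Ioo h.ne]
      exact left_mem_Icc.2 h.le
    refine le_of_tendsto hlim ?_
    filter_upwards [self_mem_nhdsWithin] with x hx
    have hxI : x ∈ Ioo a b := ⟨hca.trans_lt hx.1, hx.2.trans_le hy.2⟩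
    have h0 : w < rd g x := by
      by_contra hcon
      exact hout x hxI hx.1 ⟨not_lt.1 hcon, hxI⟩
    have h1 := h0.le.trans (rd_le_slope hg hxI hy hx.2)
    rw [slope_def_field, le_div_iff₀ (sub_pos.2 hx.2)] at h1
    linarith

lemma rd_neg (f : ℝ → ℝ) (x : ℝ) : rd (fun y => - f y) x = - rd f x := by
  unfold rd
  exact derivWithin.fun_neg

lemma sT_eq (S : Strip) : S.sT = rd (fun y => - S.T y) := by
  funext x
  rw [rd_neg]
  rfl

lemma muT_Iic (S : Strip) (w : ℝ) :
    S.μT (Iic w) = volume (rd (fun y => - S.T y) ⁻¹' Iic w ∩ Ioo S.a S.b) := by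
  have hconv : ConvexOn ℝ (Icc S.a S.b) (fun y => - S.T y) := S.concT.neg
  have hae : AEMeasurable S.sT (volume.restrict (Ioo S.a S.b)) := by
    rw [sT_eq]
    exact aemeasurable_restrict_of_monotoneOn measurableSet_Ioo (mono_rd hconv)
  unfold Strip.μT
  rw [Measure.map_apply_of_aemeasurable hae measurableSet_Iic,
    Measure.restrict_apply' measurableSet_Ioo, sT_eq]

/-- module SUPD -/
theorem supd : T_SUPD := by
  intro S w
  have hconv : ConvexOn ℝ (Icc S.a S.b) (fun y => - S.T y) := S.concT.neg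
  have hcont : ContinuousOn (fun y => - S.T y) (Icc S.a S.b) := S.contT.neg
  set c : ℝ → ℝ := fun v => S.a + (S.μT (Iic v)).toReal with hc
  have hcv : ∀ v, c v ∈ Icc S.a S.b ∧ ∀ y ∈ Icc S.a S.b, S.T y + v * y ≤ S.T (c v) + v * c v := by
    intro v
    have h := contact S.hab hconv hcont v
    simp only [hc, muT_Iic]
    refine ⟨h.1, fun y hy => ?_⟩
    have := h.2 y hy
    linarith
  have hh : ∀ v, S.hT v = S.T (c v) + v * c v := by
    intro v
    have : IsGreatest ((fun x => S.T x + v * x) '' Icc S.a S.b) (S.T (c v) + v * c v) := by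
      refine ⟨⟨c v, (hcv v).1, rfl⟩, ?_⟩
      rintro _ ⟨y, hy, rfl⟩
      exact (hcv v).2 y hy
    exact this.csSup_eq
  have hsub : ∀ v v', S.hT v + (v' - v) * c v ≤ S.hT v' := by
    intro v v'
    rw [hh v, hh v']
    have := (hcv v').2 (c v) (hcv v).1
    linarith
  -- right continuity of `c`
  have hfin : IsFiniteMeasure S.μT := by
    refine ⟨?_⟩
    have hae : AEMeasurable S.sT (volume.restrict (Ioo S.a S.b)) := by
      rw [sT_eq]
      exact aemeasurable_restrict_of_monotoneOn measurableSet_Ioo (mono_rd hconv)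
    unfold Strip.μT
    rw [Measure.map_apply_of_aemeasurable hae MeasurableSet.univ, preimage_univ,
      Measure.restrict_apply_univ, Real.volume_Ioo]
    exact ENNReal.ofReal_lt_top
  have hcr : Tendsto c (𝓝[>] w) (𝓝 (c w)) := by
    have h1 : Tendsto (S.μT ∘ Iic) (𝓝[Ioi w] w) (𝓝 (S.μT (⋂ r > w, Iic r))) :=
      tendsto_measure_biInter_gt (fun r _ => measurableSet_Iic.nullMeasurableSet)
        (fun i j _ hij => Iic_subset_Iic.2 hij) ⟨w + 1, by linarith [show w + 1 > w by linarith], measure_ne_top _ _⟩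
    have h2 : (⋂ r > w, Iic r) = Iic w := by
      ext x
      simp only [mem_iInter, mem_Iic]
      exact ⟨fun h => le_of_forall_gt_imp_ge_of_dense h, fun h r hr => h.trans hr.le⟩
    rw [h2] at h1
    have h3 : Tendsto (fun v => (S.μT (Iic v)).toReal) (𝓝[>] w) (𝓝 (S.μT (Iic w)).toReal) :=
      (ENNReal.tendsto_toReal (measure_ne_top _ _)).comp h1
    exact h3.const_add S.a
  rw [hasDerivWithinAt_iff_tendsto_slope' (notMem_Ioi.2 le_rfl)]
  refine tendsto_of_tendsto_of_tendsto_of_le_of_le' tendsto_const_nhds hcr ?_ ?_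
  · filter_upwards [self_mem_nhdsWithin] with v hv
    rw [slope_def_field, le_div_iff₀ (sub_pos.2 hv)]
    have := hsub w v
    change c w * (v - w) ≤ S.hT v - S.hT w
    linarith
  · filter_upwards [self_mem_nhdsWithin] with v hv
    rw [slope_def_field, div_le_iff₀ (sub_pos.2 hv)]
    have := hsub v w
    linarith

end Pool.Agent.H41.BP
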