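import Pool.Agent.H66.BP.Targets
import Pool.Agent.H41.BP.SUPD

/-! module NEG of MP_d8fe2e_gt: the reflected strip -/

open MeasureTheory Set Filter Topology Metric
open scoped Real ENNReal NNReal

namespace Pool.Agent.H41.BP

open Pool.Agent.H66.BP

/-- left and right derivatives agree outside a countable set -/
lemma ld_eq_rd {a b : ℝ} {g : ℝ → ℝ} (hg : ConvexOn ℝ (Icc a b) g) :
    ∃ N : Set ℝ, N.Countable ∧ ∀ x ∈ Ioo a b, x ∉ N → derivWithin g (Iio x) x = rd g x := by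
  refine ⟨{x ∈ Ioo a b | ¬ContinuousWithinAt (rd g) (Ioo a b ∩ Iio x) x},
    (mono_rd hg).countable_not_continuousWithinAt_Iio, fun x hx hN => ?_⟩
  refine le_antisymm (ld_le_rd hg hx) ?_
  have hc : ContinuousWithinAt (rd g) (Ioo a b ∩ Iio x) x := by
    by_contra h
    exact hN ⟨hx, h⟩
  have hset : Ioo a b ∩ Iio x = Ioo a x := by
    ext y
    exact ⟨fun h => ⟨h.1.1, h.2⟩, fun h => ⟨⟨h.1, h.2.trans hx.2⟩, h.2⟩⟩
  rw [hset] at hc
  have hne : (𝓝[Ioo a x] x).NeBot := by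
    rw [← mem_closure_iff_nhdsWithin_neBot, closure_Ioo hx.1.ne]
    exact right_mem_Icc.2 hx.1.le
  refine le_of_tendsto hc ?_
  filter_upwards [self_mem_nhdsWithin] with y hy
  have hyI : y ∈ Ioo a b := ⟨hy.1, hy.2.trans hx.2⟩
  exact (rd_le_slope hg hyI (Ioo_subset_Icc_self hx) hy.2).trans
    (slope_le_ld hg (Ioo_subset_Icc_self hyI) hx hy.2)

/-- the right derivative of the reflected function -/
lemma rd_refl {a b : ℝ} {g : ℝ → ℝ} (hg : ConvexOn ℝ (Icc a b) g) {x : ℝ} (hx : -x ∈ Ioo a b) :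
    rd (fun y => - g (-y)) x = derivWithin g (Iio (-x)) (-x) := by
  have h1 : HasDerivWithinAt g (derivWithin g (Iio (-x)) (-x)) (Iio (-x)) (-x) :=
    hg.hasDerivWithinAt_leftDeriv_of_mem_interior (by rwa [interior_Icc])
  have h2 : HasDerivWithinAt (fun y : ℝ => -y) (-1) (Ioi x) x := (hasDerivAt_neg x).hasDerivWithinAt
  have h3 : HasDerivWithinAt (fun y => g (-y)) (derivWithin g (Iio (-x)) (-x) * (-1)) (Ioi x) x :=
    HasDerivWithinAt.comp x h1 h2 fun y (hy : x < y) => (neg_lt_neg hy : -y < -x)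
  have h4 := h3.neg
  unfold rd
  have h5 := h4.derivWithin (uniqueDiffWithinAt_Ioi x)
  simp only [mul_neg, mul_one, neg_neg] at h5
  exact h5

/-- a.e. version for convex functions -/
lemma rd_refl_ae {a b : ℝ} {g : ℝ → ℝ} (hg : ConvexOn ℝ (Icc a b) g) :
    ∀ᵐ x : ℝ, x ∈ Ioo (-b) (-a) → rd (fun y => - g (-y)) x = rd g (-x) := by
  obtain ⟨N, hN, h⟩ := ld_eq_rd hg
  have hN2 : ((fun x : ℝ => -x) ⁻¹' N).Countable := hN.preimage neg_injective
  filter_upwards [measure_eq_zero_iff_ae_notMem.1 (hN2.measure_zero volume)] with x hx hxI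
  have hx2 : -x ∈ Ioo a b := ⟨by linarith [hxI.2], by linarith [hxI.1]⟩
  rw [rd_refl hg hx2, h (-x) hx2 hx]

lemma rd_T_ae (S : Strip) : ∀ᵐ x : ℝ, x ∈ Ioo (-S.b) (-S.a) → rd S.neg.T x = rd S.B (-x) :=
  rd_refl_ae S.convB

lemma rd_B_ae (S : Strip) : ∀ᵐ x : ℝ, x ∈ Ioo (-S.b) (-S.a) → rd S.neg.B x = rd S.T (-x) := by
  have hconv : ConvexOn ℝ (Icc S.a S.b) (fun y => - S.T y) := S.concT.neg
  filter_upwards [rd_refl_ae hconv] with x hx hxI
  have h1 := hx hxI
  rw [rd_neg, rd_neg] at h1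
  have h2 : rd S.neg.B x = rd (fun y => - S.T (-y)) x := rfl
  rw [h2, rd_neg]
  simp only [neg_neg] at h1
  rw [rd_neg] at h1
  linarith

/-- push forward of the restricted Lebesgue measure under the reflection -/
lemma map_neg_restrict (a b : ℝ) :
    (volume.restrict (Ioo (-b) (-a))).map (fun x : ℝ => -x) = volume.restrict (Ioo a b) := by
  have h1 : MeasurePreserving (fun x : ℝ => -x) volume volume := Measure.measurePreserving_neg volume
  have h2 := h1.restrict_preimage (measurableSet_Ioo (a := a) (b := b))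
  have h3 : (fun x : ℝ => -x) ⁻¹' Ioo a b = Ioo (-b) (-a) := by
    ext x
    simp only [mem_preimage, mem_Ioo]
    constructor
    · rintro ⟨h, h'⟩
      exact ⟨by linarith, by linarith⟩
    · rintro ⟨h, h'⟩
      exact ⟨by linarith, by linarith⟩
  rw [h3] at h2
  exact h2.map_eq

lemma map_refl {a b : ℝ} {s s' : ℝ → ℝ} (hs : AEMeasurable s (volume.restrict (Ioo a b)))
    (h : ∀ᵐ x : ℝ, x ∈ Ioo (-b) (-a) → s' x = s (-x)) :
    (volume.restrict (Ioo (-b) (-a))).map s' = (volume.restrict (Ioo a b)).map s := by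
  have h1 : s' =ᵐ[volume.restrict (Ioo (-b) (-a))] (s ∘ fun x => -x) :=
    (ae_restrict_iff' measurableSet_Ioo).2 h
  rw [Measure.map_congr h1, ← map_neg_restrict a b]
  rw [← map_neg_restrict a b] at hs
  exact (AEMeasurable.map_map_of_aemeasurable hs measurable_neg.aemeasurable).symm

lemma aem_sT (S : Strip) : AEMeasurable S.sT (volume.restrict (Ioo S.a S.b)) := by
  rw [sT_eq]
  exact aemeasurable_restrict_of_monotoneOn measurableSet_Ioo (mono_rd S.concT.neg)

lemma aem_sB (S : Strip) : AEMeasurable S.sB (volume.restrict (Ioo S.a S.b)) :=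
  (aemeasurable_restrict_of_monotoneOn measurableSet_Ioo (mono_rd S.convB)).neg

/-- substitution in the integrals along the graphs -/
lemma int_refl {a b : ℝ} (hab : a < b) {f f' : ℝ → ℂ}
    (h : ∀ᵐ x : ℝ, x ∈ Ioo (-b) (-a) → f' x = f (-x)) :
    ∫ x in (-b)..(-a), f' x = ∫ x in a..b, f x := by
  have h1 : ∫ x in (-b)..(-a), f' x = ∫ x in (-b)..(-a), f (-x) := by
    refine intervalIntegral.integral_congr_ae ?_
    have h2 : ∀ᵐ x : ℝ, x ≠ -a := by
      rw [ae_iff]
      simp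
    filter_upwards [h, h2] with x hx hx2 hxI
    rw [uIoc_of_le (by linarith)] at hxI
    exact hx ⟨hxI.1, lt_of_le_of_ne hxI.2 hx2⟩
  rw [h1, intervalIntegral.integral_comp_neg]
  simp

lemma vert_refl (c d : ℝ) (z1 z2 : ℂ) (x : ℝ) :
    ∫ y in (-d)..(-c), Complex.exp (z1 * (y : ℂ) + z2 * ((-x : ℝ) : ℂ))
      = ∫ y in c..d, Complex.exp (-z1 * (y : ℂ) + -z2 * (x : ℂ)) := by
  have h := intervalIntegral.integral_comp_neg (a := -d) (b := -c)
    (fun y : ℝ => Complex.exp (-z1 * (y : ℂ) + -z2 * (x : ℂ)))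
  simp only [neg_neg] at h
  rw [← h]
  refine intervalIntegral.integral_congr fun y _ => ?_
  change Complex.exp (z1 * (y : ℂ) + z2 * ((-x : ℝ) : ℂ))
    = Complex.exp (-z1 * ((-y : ℝ) : ℂ) + -z2 * (x : ℂ))
  congr 1
  push_cast
  ring

/-- module NEG -/
theorem negm : T_NEG := by
  intro S
  refine ⟨?_, ?_, ?_, ?_, ?_, ?_⟩
  · ext y
    constructor
    · rintro ⟨h1, h2, h3⟩
      refine ⟨-y, ⟨?_, ?_, ?_⟩, neg_neg y⟩
      · change -(y 1) ∈ Icc S.a S.b
        have h4 : -S.b ≤ y 1 := h1.1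
        have h5 : y 1 ≤ -S.a := h1.2
        exact ⟨by linarith, by linarith⟩
      · change S.B (-(y 1)) ≤ -(y 0)
        have : y 0 ≤ - S.B (-(y 1)) := h3
        linarith
      · change -(y 0) ≤ S.T (-(y 1))
        have : - S.T (-(y 1)) ≤ y 0 := h2
        linarith
    · rintro ⟨x, ⟨h1, h2, h3⟩, rfl⟩
      refine ⟨?_, ?_, ?_⟩
      · change -(x 1) ∈ Icc (-S.b) (-S.a)
        exact ⟨by linarith [h1.2], by linarith [h1.1]⟩
      · change - S.T (-(-(x 1))) ≤ -(x 0)
        rw [neg_neg]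
        linarith
      · change -(x 0) ≤ - S.B (-(-(x 1)))
        rw [neg_neg]
        linarith
  · rintro ⟨z1, z2⟩
    unfold Strip.F
    have e1 : ∫ x in S.neg.a..S.neg.b, Complex.exp ((z1, z2).1 * (S.neg.T x : ℂ)
        + (z1, z2).2 * (x : ℂ)) * (al S.neg.T x : ℂ)
        = ∫ x in S.a..S.b, Complex.exp (-z1 * (S.B x : ℂ) + -z2 * (x : ℂ)) * (al S.B x : ℂ) := by
      refine int_refl S.hab ?_
      filter_upwards [rd_T_ae S] with x hx hxI
      unfold al
      rw [hx hxI]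
      congr 2
      change z1 * ((- S.B (-x) : ℝ) : ℂ) + z2 * (x : ℂ) = -z1 * (S.B (-x) : ℂ) + -z2 * ((-x : ℝ) : ℂ)
      push_cast
      ring
    have e2 : ∫ x in S.neg.a..S.neg.b, Complex.exp ((z1, z2).1 * (S.neg.B x : ℂ)
        + (z1, z2).2 * (x : ℂ)) * (al S.neg.B x : ℂ)
        = ∫ x in S.a..S.b, Complex.exp (-z1 * (S.T x : ℂ) + -z2 * (x : ℂ)) * (al S.T x : ℂ) := by
      refine int_refl S.hab ?_
      filter_upwards [rd_B_ae S] with x hx hxI
      unfold al
      rw [hx hxI]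
      congr 2
      change z1 * ((- S.T (-x) : ℝ) : ℂ) + z2 * (x : ℂ) = -z1 * (S.T (-x) : ℂ) + -z2 * ((-x : ℝ) : ℂ)
      push_cast
      ring
    have e3 : ∫ y in S.neg.B S.neg.a..S.neg.T S.neg.a, Complex.exp ((z1, z2).1 * (y : ℂ)
        + (z1, z2).2 * (S.neg.a : ℂ))
        = ∫ y in S.B S.b..S.T S.b, Complex.exp (-z1 * (y : ℂ) + -z2 * (S.b : ℂ)) := by
      have h1 : S.neg.B S.neg.a = - S.T S.b := by
        change - S.T (-(-S.b)) = _
        rw [neg_neg]
      have h2 : S.neg.T S.neg.a = - S.B S.b := by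
        change - S.B (-(-S.b)) = _
        rw [neg_neg]
      rw [h1, h2]
      exact vert_refl _ _ z1 z2 S.b
    have e4 : ∫ y in S.neg.B S.neg.b..S.neg.T S.neg.b, Complex.exp ((z1, z2).1 * (y : ℂ)
        + (z1, z2).2 * (S.neg.b : ℂ))
        = ∫ y in S.B S.a..S.T S.a, Complex.exp (-z1 * (y : ℂ) + -z2 * (S.a : ℂ)) := by
      have h1 : S.neg.B S.neg.b = - S.T S.a := by
        change - S.T (-(-S.a)) = _
        rw [neg_neg]
      have h2 : S.neg.T S.neg.b = - S.B S.a := by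
        change - S.B (-(-S.a)) = _
        rw [neg_neg]
      rw [h1, h2]
      exact vert_refl _ _ z1 z2 S.a
    rw [e1, e2, e3, e4]
    simp only [Prod.neg_mk]
    ring
  · refine map_refl (aem_sB S) ?_
    filter_upwards [rd_T_ae S] with x hx hxI
    change - rd S.neg.T x = - rd S.B (-x)
    rw [hx hxI]
  · refine map_refl (aem_sT S) ?_
    filter_upwards [rd_B_ae S] with x hx hxI
    change - rd S.neg.B x = - rd S.T (-x)
    rw [hx hxI]
  · intro w
    have h : (fun x => S.neg.T x + w * x) '' Icc S.neg.a S.neg.b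
        = -((fun x => S.B x + w * x) '' Icc S.a S.b) := by
      ext t
      rw [Set.mem_neg]
      constructor
      · rintro ⟨x, hx, rfl⟩
        refine ⟨-x, ⟨by linarith [show x ≤ -S.a from hx.2], by linarith [show -S.b ≤ x from hx.1]⟩, ?_⟩
        change S.B (-x) + w * (-x) = -(- S.B (-x) + w * x)
        ring
      · rintro ⟨x, hx, hxt⟩
        refine ⟨-x, ⟨neg_le_neg hx.2, neg_le_neg hx.1⟩, ?_⟩
        change - S.B (-(-x)) + w * (-x) = t
        rw [neg_neg]
        simp only at hxt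
        linarith
    unfold Strip.hT Strip.gB
    rw [h, Real.sSup_neg]
  · intro w
    have h : (fun x => S.neg.B x + w * x) '' Icc S.neg.a S.neg.b
        = -((fun x => S.T x + w * x) '' Icc S.a S.b) := by
      ext t
      rw [Set.mem_neg]
      constructor
      · rintro ⟨x, hx, rfl⟩
        refine ⟨-x, ⟨by linarith [show x ≤ -S.a from hx.2], by linarith [show -S.b ≤ x from hx.1]⟩, ?_⟩
        change S.T (-x) + w * (-x) = -(- S.T (-x) + w * x)
        ring
      · rintro ⟨x, hx, hxt⟩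
        refine ⟨-x, ⟨neg_le_neg hx.2, neg_le_neg hx.1⟩, ?_⟩
        change - S.T (-(-x)) + w * (-x) = t
        rw [neg_neg]
        simp only at hxt
        linarith
    unfold Strip.hT Strip.gB
    rw [h, Real.sInf_neg]

end Pool.Agent.H41.BP
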